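import Pool.Agent.Helper79.EX.Riem2
import Pool.Agent.Helper22.AE.Defs

/-!
# The sum over the primitive vectors and the affine perimeter (project EX, block R)
-/

open MeasureTheory Real Set Filter Topology

set_option autoImplicit false

namespace Pool.Agent.Helper79.EX

open Pool.Agent.Helper22.AE (nk tk cz)

noncomputable section

variable {φ : ℝ → ℝ} {C : ℝ} {r : ℝ → ℝ} {ell : ℝ}

/-- the summand -/
def GG (φ r : ℝ → ℝ) (ell : ℝ) (p : ℝ × ℝ) : ℝ :=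
  φ (ell * sqrt (r (Complex.arg (cpx p))) * ‖cpx p‖ ^ (-(3 / 2) : ℝ))

theorem exists_bd (hr : Continuous r) : ∃ B : ℝ, 0 ≤ B ∧ ∀ t ∈ Icc (-π) π, sqrt (r t) ≤ B := by
  obtain ⟨B, hB⟩ := (isCompact_Icc (a := -π) (b := π)).exists_bound_of_continuousOn
    (f := fun t => sqrt (r t)) (by fun_prop)
  refine ⟨max B 0, le_max_right _ _, fun t ht => ?_⟩
  have := hB t ht
  rw [Real.norm_eq_abs, abs_of_nonneg (sqrt_nonneg _)] at this
  exact this.trans (le_max_left _ _)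

theorem rpow_sq {x : ℝ} (hx : 0 ≤ x) : (x ^ (-(3 / 2) : ℝ)) ^ 2 = x ^ (-3 : ℝ) := by
  rw [← Real.rpow_natCast, ← Real.rpow_mul hx]
  norm_num

/-- the constant of the bound -/
def CC (C ell B : ℝ) : ℝ := C * max (ell * B) ((ell * B) ^ 2)

theorem CC_nonneg {B : ℝ} (hC : 0 ≤ C) : 0 ≤ CC C ell B :=
  mul_nonneg hC ((sq_nonneg _).trans (le_max_right _ _))

theorem phi_bound (h1 : ∀ s, |φ s| ≤ C * |s|) (h2 : ∀ s, |φ s| ≤ C * s ^ 2) (hC : 0 ≤ C)
    (hell : 0 ≤ ell) {B t : ℝ} (hB : sqrt (r t) ≤ B) {x : ℝ} (hx : 0 ≤ x) :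
    |φ (ell * sqrt (r t) * x ^ (-(3 / 2) : ℝ))| ≤ CC C ell B * D1 x := by
  have hs := sqrt_nonneg (r t)
  have hB0 : 0 ≤ B := hs.trans hB
  have h3 : ell * sqrt (r t) ≤ ell * B := mul_le_mul_of_nonneg_left hB hell
  have h4 : 0 ≤ ell * sqrt (r t) := mul_nonneg hell hs
  have h5 : 0 ≤ x ^ (-(3 / 2) : ℝ) := by positivity
  have h6 : 0 ≤ x ^ (-3 : ℝ) := by positivity
  have hm1 : ell * B ≤ max (ell * B) ((ell * B) ^ 2) := le_max_left _ _
  have hm2 : (ell * B) ^ 2 ≤ max (ell * B) ((ell * B) ^ 2) := le_max_right _ _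
  unfold CC D1
  rw [mul_min_of_nonneg _ _ (mul_nonneg hC ((sq_nonneg _).trans hm2)), le_min_iff]
  constructor
  · calc |φ (ell * sqrt (r t) * x ^ (-(3 / 2) : ℝ))| ≤ C * |ell * sqrt (r t) * x ^ (-(3 / 2) : ℝ)| := h1 _
      _ = C * (ell * sqrt (r t)) * x ^ (-(3 / 2) : ℝ) := by
        rw [abs_of_nonneg (mul_nonneg h4 h5)]; ring
      _ ≤ _ := mul_le_mul_of_nonneg_right (mul_le_mul_of_nonneg_left (h3.trans hm1) hC) h5
  · calc |φ (ell * sqrt (r t) * x ^ (-(3 / 2) : ℝ))| ≤ C * (ell * sqrt (r t) * x ^ (-(3 / 2) : ℝ)) ^ 2 := h2 _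
      _ = C * (ell * sqrt (r t)) ^ 2 * x ^ (-3 : ℝ) := by
        rw [mul_pow, rpow_sq hx]; ring
      _ ≤ _ := mul_le_mul_of_nonneg_right (mul_le_mul_of_nonneg_left
        ((pow_le_pow_left₀ h4 h3 2).trans hm2) hC) h6

theorem GG_bound (h1 : ∀ s, |φ s| ≤ C * |s|) (h2 : ∀ s, |φ s| ≤ C * s ^ 2) (hC : 0 ≤ C)
    (hell : 0 ≤ ell) {B : ℝ} (hB : ∀ t ∈ Icc (-π) π, sqrt (r t) ≤ B) (p : ℝ × ℝ) :
    |GG φ r ell p| ≤ CC C ell B * DD p :=
  phi_bound h1 h2 hC hell (hB _ ⟨(Complex.neg_pi_lt_arg _).le, Complex.arg_le_pi _⟩) (norm_nonneg _)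

theorem cpx_continuous : Continuous cpx := Complex.equivRealProdCLM.symm.continuous

theorem GG_continuousAt (hφ : Continuous φ) (hr : Continuous r) :
    ∀ᵐ p, ContinuousAt (GG φ r ell) p := by
  have h1 : ∀ᵐ p : ℝ × ℝ, p ∈ polarCoord.source := by
    have := polarCoord_source_ae_eq_univ
    filter_upwards [this] with p hp
    exact hp.mpr trivial
  filter_upwards [h1] with p hp
  have h2 : cpx p ∈ Complex.slitPlane := hp
  have h3 : ContinuousAt (fun p => Complex.arg (cpx p)) p :=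
    ContinuousAt.comp (Complex.continuousAt_arg h2) cpx_continuous.continuousAt
  have h4 : ContinuousAt (fun p => ‖cpx p‖ ^ (-(3 / 2) : ℝ)) p := by
    refine ContinuousAt.rpow_const (cpx_continuous.norm.continuousAt) (Or.inl ?_)
    rw [Ne, norm_eq_zero]
    exact Complex.slitPlane_ne_zero h2
  unfold GG
  exact hφ.continuousAt.comp ((continuousAt_const.mul
    ((continuous_sqrt.comp hr).continuousAt.comp h3)).mul h4)

theorem polar_norm {q : ℝ × ℝ} (hq : q ∈ polarCoord.target) : ‖cpx (polarCoord.symm q)‖ = q.1 := by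
  have h1 := polarCoord.right_inv hq
  have h2 := congrArg Prod.fst h1
  rw [polarCoord_apply] at h2
  simp only at h2
  rw [← h2, Complex.norm_def, Complex.normSq_apply]
  unfold cpx
  simp only
  congr 1
  ring

theorem polar_arg {q : ℝ × ℝ} (hq : q ∈ polarCoord.target) :
    Complex.arg (cpx (polarCoord.symm q)) = q.2 := by
  have h1 := polarCoord.right_inv hq
  exact congrArg Prod.snd h1

theorem inner (A : ℝ) (hA : 0 < A) : ∫ ρ in Ioi (0 : ℝ), ρ * φ (A * ρ ^ (-(3 / 2) : ℝ)) =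
    A ^ (4 / 3 : ℝ) * ∫ u in Ioi (0 : ℝ), φ (u ^ (-(3 / 2) : ℝ)) * u := by
  have hb : 0 < A ^ (2 / 3 : ℝ) := by positivity
  have h1 := integral_comp_mul_left_Ioi (fun ρ => ρ * φ (A * ρ ^ (-(3 / 2) : ℝ))) 0 hb
  rw [mul_zero, smul_eq_mul] at h1
  have h2 : ∫ u in Ioi (0 : ℝ), A ^ (2 / 3 : ℝ) * u * φ (A * (A ^ (2 / 3 : ℝ) * u) ^ (-(3 / 2) : ℝ)) =
      A ^ (2 / 3 : ℝ) * ∫ u in Ioi (0 : ℝ), φ (u ^ (-(3 / 2) : ℝ)) * u := by
    rw [← integral_const_mul]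
    refine setIntegral_congr_fun measurableSet_Ioi fun u hu => ?_
    have hu0 : (0 : ℝ) < u := hu
    have h3 : A * (A ^ (2 / 3 : ℝ) * u) ^ (-(3 / 2) : ℝ) = u ^ (-(3 / 2) : ℝ) := by
      rw [Real.mul_rpow hb.le hu0.le, ← Real.rpow_mul hA.le, ← mul_assoc]
      have h4 : A * A ^ (2 / 3 * -(3 / 2) : ℝ) = 1 := by
        have : (2 / 3 * -(3 / 2) : ℝ) = -1 := by norm_num
        rw [this, Real.rpow_neg_one, mul_inv_cancel₀ hA.ne']
      rw [h4, one_mul]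
    simp only [h3]
    ring
  rw [h2] at h1
  have h3 : A ^ (4 / 3 : ℝ) = A ^ (2 / 3 : ℝ) * A ^ (2 / 3 : ℝ) := by
    rw [← Real.rpow_add hA]
    norm_num
  rw [h3, mul_assoc, h1, ← mul_assoc, mul_inv_cancel₀ hb.ne', one_mul]

theorem integral_GG (hφ : Continuous φ) (h1 : ∀ s, |φ s| ≤ C * |s|) (h2 : ∀ s, |φ s| ≤ C * s ^ 2)
    (hC : 0 ≤ C) (hr : Continuous r) (hper : Function.Periodic r (2 * π)) (hpos : ∀ t, 0 < r t)
    (hell : 0 < ell) : ∫ p, GG φ r ell p = (∫ t in (0 : ℝ)..(2 * π), r t ^ (2 / 3 : ℝ)) *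
      (∫ u in Ioi (0 : ℝ), φ (u ^ (-(3 / 2) : ℝ)) * u) * ell ^ (4 / 3 : ℝ) := by
  obtain ⟨B, hB0, hB⟩ := exists_bd hr
  rw [← integral_comp_polarCoord_symm]
  have hm : MeasurableSet polarCoord.target := polarCoord.open_target.measurableSet
  rw [setIntegral_congr_fun (g := fun q : ℝ × ℝ => q.1 * φ (ell * sqrt (r q.2) * q.1 ^ (-(3 / 2) : ℝ)))
    hm (fun q hq => by
      simp only [GG, polar_norm hq, polar_arg hq, smul_eq_mul])]
  rw [polarCoord_target, Measure.volume_eq_prod, ← Measure.prod_restrict]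
  have hint : Integrable (fun q : ℝ × ℝ => q.1 * φ (ell * sqrt (r q.2) * q.1 ^ (-(3 / 2) : ℝ)))
      ((volume.restrict (Ioi (0 : ℝ))).prod (volume.restrict (Ioo (-π) π))) := by
    have h3 : Integrable (fun q : ℝ × ℝ => CC C ell B * (q.1 * D1 q.1) * 1)
        ((volume.restrict (Ioi (0 : ℝ))).prod (volume.restrict (Ioo (-π) π))) :=
      Integrable.mul_prod (f := fun y : ℝ => CC C ell B * (y * D1 y)) (g := fun _ : ℝ => (1 : ℝ))
        (D1_integrableOn.const_mul _) (integrable_const _)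
    refine h3.mono' ?_ ?_
    · have : Measurable fun q : ℝ × ℝ => q.1 * φ (ell * sqrt (r q.2) * q.1 ^ (-(3 / 2) : ℝ)) := by
        have := hφ.measurable
        have := hr.measurable
        fun_prop
      exact this.aestronglyMeasurable
    · rw [Measure.prod_restrict]
      filter_upwards [ae_restrict_mem (measurableSet_Ioi.prod measurableSet_Ioo)] with q hq
      have hq1 : (0 : ℝ) < q.1 := hq.1
      rw [Real.norm_eq_abs, abs_mul, abs_of_pos hq1, mul_one]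
      have h4 := phi_bound (r := r) h1 h2 hC hell.le (hB q.2 ⟨hq.2.1.le, hq.2.2.le⟩) hq1.le
      calc q.1 * |φ (ell * sqrt (r q.2) * q.1 ^ (-(3 / 2) : ℝ))| ≤ q.1 * (CC C ell B * D1 q.1) :=
            mul_le_mul_of_nonneg_left h4 hq1.le
        _ = _ := by ring
  rw [integral_prod_symm _ hint]
  have h5 : ∀ t : ℝ, ∫ ρ in Ioi (0 : ℝ), ρ * φ (ell * sqrt (r t) * ρ ^ (-(3 / 2) : ℝ)) =
      r t ^ (2 / 3 : ℝ) * ((∫ u in Ioi (0 : ℝ), φ (u ^ (-(3 / 2) : ℝ)) * u) * ell ^ (4 / 3 : ℝ)) := by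
    intro t
    have hs := sqrt_pos.2 (hpos t)
    rw [inner _ (mul_pos hell hs), Real.mul_rpow hell.le hs.le]
    have h6 : sqrt (r t) ^ (4 / 3 : ℝ) = r t ^ (2 / 3 : ℝ) := by
      rw [Real.sqrt_eq_rpow, ← Real.rpow_mul (hpos t).le]
      norm_num
    rw [h6]
    ring
  simp only [h5]
  rw [integral_mul_const, ← integral_Ioc_eq_integral_Ioo, ← intervalIntegral.integral_of_le (by linarith [pi_pos])]
  have h7 : ∫ t in (-π)..π, r t ^ (2 / 3 : ℝ) = ∫ t in (0 : ℝ)..(2 * π), r t ^ (2 / 3 : ℝ) := by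
    have hp : Function.Periodic (fun t => r t ^ (2 / 3 : ℝ)) (2 * π) := fun t => by
      simp only [hper t]
    have := hp.intervalIntegral_add_eq (-π) 0
    rw [zero_add] at this
    rw [← this]
    congr 1
    ring
  rw [h7]
  ring

theorem GG_pt {Y : ℝ} (hY : 0 < Y) (k : ℤ × ℤ) : GG φ r ell (pt (1 / Y) k) =
    φ (ell * sqrt (r (tk k)) * (nk k / Y) ^ (-(3 / 2) : ℝ)) := by
  have h1 : cpx (pt (1 / Y) k) = ((1 / Y : ℝ) : ℂ) * cz k := by
    unfold cpx pt cz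
    apply Complex.ext
    · simp
    · simp
  have hY' : (0 : ℝ) < 1 / Y := by positivity
  unfold GG
  rw [h1, Complex.arg_real_mul _ hY', norm_mul, Complex.norm_real, Real.norm_eq_abs, abs_of_pos hY']
  unfold tk nk
  congr 3
  ring

/-- **The sum over the primitive vectors.** -/
theorem riem (hφ : Continuous φ) (h1 : ∀ s, |φ s| ≤ C * |s|) (h2 : ∀ s, |φ s| ≤ C * s ^ 2)
    (hC : 0 ≤ C) (hr : Continuous r) (hper : Function.Periodic r (2 * π)) (hpos : ∀ t, 0 < r t)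
    (hell : 0 < ell) :
    Tendsto (fun Y : ℝ => (∑' k : ℤ × ℤ, if Int.gcd k.1 k.2 = 1 then
        φ (ell * sqrt (r (tk k)) * (nk k / Y) ^ (-(3 / 2) : ℝ)) else 0) / Y ^ 2) atTop
      (𝓝 (6 / π ^ 2 * (∫ t in (0 : ℝ)..(2 * π), r t ^ (2 / 3 : ℝ)) *
        (∫ u in Ioi (0 : ℝ), φ (u ^ (-(3 / 2) : ℝ)) * u) * ell ^ (4 / 3 : ℝ))) := by
  obtain ⟨B, hB0, hB⟩ := exists_bd hr
  have h3 := PR_tendsto (CC_nonneg (ell := ell) (B := B) hC) (GG_bound h1 h2 hC hell.le hB)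
    (GG_continuousAt (ell := ell) hφ hr)
  rw [integral_GG hφ h1 h2 hC hr hper hpos hell, ← mul_assoc, ← mul_assoc] at h3
  have h4 : Tendsto (fun Y : ℝ => 1 / Y) atTop (𝓝[>] 0) := by
    simp only [one_div]
    exact tendsto_inv_atTop_nhdsGT_zero
  refine (h3.comp h4).congr' ?_
  filter_upwards [eventually_gt_atTop 0] with Y hY
  rw [Function.comp_apply]
  unfold PR
  have h5 : ∀ k : ℤ × ℤ, (if Int.gcd k.1 k.2 = 1 then GG φ r ell (pt (1 / Y) k) else 0) =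
      if Int.gcd k.1 k.2 = 1 then φ (ell * sqrt (r (tk k)) * (nk k / Y) ^ (-(3 / 2) : ℝ)) else 0 := by
    intro k
    rw [GG_pt hY]
  rw [tsum_congr h5]
  field_simp

/-- Summability. -/
theorem riem_summable (h1 : ∀ s, |φ s| ≤ C * |s|) (h2 : ∀ s, |φ s| ≤ C * s ^ 2)
    (hC : 0 ≤ C) (hr : Continuous r) (hell : 0 ≤ ell) {Y : ℝ} (hY : 0 < Y) :
    Summable fun k : ℤ × ℤ => φ (ell * sqrt (r (tk k)) * (nk k / Y) ^ (-(3 / 2) : ℝ)) := by
  obtain ⟨B, hB0, hB⟩ := exists_bd hr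
  have h3 := summable_pt (CC_nonneg (ell := ell) (B := B) hC) (GG_bound h1 h2 hC hell hB)
    (h := 1 / Y) (by positivity)
  exact h3.congr fun k => GG_pt hY k

/-- Summability over the primitive vectors. -/
theorem riem_summ (h1 : ∀ s, |φ s| ≤ C * |s|) (h2 : ∀ s, |φ s| ≤ C * s ^ 2)
    (hC : 0 ≤ C) (hr : Continuous r) (hell : 0 ≤ ell) {Y : ℝ} (hY : 0 < Y) :
    Summable fun k : ℤ × ℤ => if Int.gcd k.1 k.2 = 1 then
      φ (ell * sqrt (r (tk k)) * (nk k / Y) ^ (-(3 / 2) : ℝ)) else 0 := by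
  have h3 := riem_summable h1 h2 hC hr hell hY
  refine (h3.indicator {k : ℤ × ℤ | Int.gcd k.1 k.2 = 1}).congr fun k => ?_
  by_cases hk : Int.gcd k.1 k.2 = 1
  · rw [if_pos hk, Set.indicator_of_mem (show k ∈ {k : ℤ × ℤ | Int.gcd k.1 k.2 = 1} from hk)]
  · rw [if_neg hk, Set.indicator_of_notMem (show k ∉ {k : ℤ × ℤ | Int.gcd k.1 k.2 = 1} from hk)]

end

end Pool.Agent.Helper79.EX
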