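import Mathlib

/-!
# Riemann sums over the lattice (project EX, block R)
-/

open MeasureTheory Real Set Filter Topology

set_option autoImplicit false

namespace Pool.Agent.Helper79.EX

noncomputable section

/-- the complex number -/
def cpx (p : ℝ × ℝ) : ℂ := ⟨p.1, p.2⟩

theorem cpx_eq (p : ℝ × ℝ) : cpx p = Complex.measurableEquivRealProd.symm p := rfl

/-- the dominating function of the absolute value -/
def D1 (y : ℝ) : ℝ := min (y ^ (-(3 / 2) : ℝ)) (y ^ (-3 : ℝ))

/-- the dominating function -/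
def DD (p : ℝ × ℝ) : ℝ := D1 ‖cpx p‖

theorem D1_nonneg {y : ℝ} (hy : 0 ≤ y) : 0 ≤ D1 y := le_min (by positivity) (by positivity)

theorem DD_nonneg (p : ℝ × ℝ) : 0 ≤ DD p := D1_nonneg (norm_nonneg _)

theorem D1_anti {a b : ℝ} (ha : 0 < a) (hab : a ≤ b) : D1 b ≤ D1 a :=
  min_le_min (Real.rpow_le_rpow_of_nonpos ha hab (by norm_num))
    (Real.rpow_le_rpow_of_nonpos ha hab (by norm_num))

theorem D1_half {a : ℝ} (ha : 0 < a) : D1 (a / 2) ≤ 8 * D1 a := by
  have h1 : (a / 2) ^ (-(3 / 2) : ℝ) ≤ 8 * a ^ (-(3 / 2) : ℝ) := by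
    rw [Real.div_rpow ha.le (by norm_num), div_eq_mul_inv, mul_comm]
    refine mul_le_mul_of_nonneg_right ?_ (by positivity)
    rw [← Real.rpow_neg (by norm_num), neg_neg]
    calc (2 : ℝ) ^ (3 / 2 : ℝ) ≤ 2 ^ (3 : ℝ) := Real.rpow_le_rpow_of_exponent_le (by norm_num) (by norm_num)
      _ = 8 := by norm_num
  have h2 : (a / 2) ^ (-3 : ℝ) = 8 * a ^ (-3 : ℝ) := by
    rw [Real.div_rpow ha.le (by norm_num), div_eq_mul_inv, mul_comm, ← Real.rpow_neg (by norm_num), neg_neg]
    norm_num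
  unfold D1
  rw [mul_min_of_nonneg _ _ (by norm_num), h2]
  exact min_le_min h1 le_rfl

theorem D1_integrableOn : IntegrableOn (fun y : ℝ => y * D1 y) (Ioi 0) := by
  rw [← Ioc_union_Ioi_eq_Ioi (zero_le_one' ℝ)]
  have hm : Measurable fun y : ℝ => y * D1 y := by
    unfold D1
    fun_prop
  refine IntegrableOn.union ?_ ?_
  · have h1 : IntegrableOn (fun y : ℝ => y ^ (-(1 / 2) : ℝ)) (Ioc 0 1) := by
      rw [← intervalIntegrable_iff_integrableOn_Ioc_of_le zero_le_one]
      exact intervalIntegral.intervalIntegrable_rpow' (by norm_num)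
    refine h1.mono' hm.aestronglyMeasurable ?_
    filter_upwards [ae_restrict_mem measurableSet_Ioc] with y hy
    rw [Real.norm_eq_abs, abs_of_nonneg (mul_nonneg hy.1.le (D1_nonneg hy.1.le))]
    calc y * D1 y ≤ y * y ^ (-(3 / 2) : ℝ) := mul_le_mul_of_nonneg_left (min_le_left _ _) hy.1.le
      _ = y ^ (-(1 / 2) : ℝ) := by
        nth_rewrite 1 [← Real.rpow_one y]
        rw [← Real.rpow_add hy.1]
        norm_num
  · have h1 : IntegrableOn (fun y : ℝ => y ^ (-2 : ℝ)) (Ioi 1) :=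
      integrableOn_Ioi_rpow_of_lt (by norm_num) zero_lt_one
    refine h1.mono' hm.aestronglyMeasurable ?_
    filter_upwards [ae_restrict_mem measurableSet_Ioi] with y hy
    have hy0 : (0 : ℝ) < y := lt_trans zero_lt_one hy
    rw [Real.norm_eq_abs, abs_of_nonneg (mul_nonneg hy0.le (D1_nonneg hy0.le))]
    calc y * D1 y ≤ y * y ^ (-3 : ℝ) := mul_le_mul_of_nonneg_left (min_le_right _ _) hy0.le
      _ = y ^ (-2 : ℝ) := by
        nth_rewrite 1 [← Real.rpow_one y]
        rw [← Real.rpow_add hy0]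
        norm_num

theorem DD_integrable : Integrable DD := by
  have h1 : Integrable (fun w : ℂ => D1 ‖w‖) := by
    rw [integrable_fun_norm_addHaar (E := ℂ) volume (f := D1)]
    simp only [Complex.finrank_real_complex, Nat.add_one_sub_one, pow_one, smul_eq_mul]
    exact D1_integrableOn
  have h2 := (Complex.volume_preserving_equiv_real_prod.symm Complex.measurableEquivRealProd).integrable_comp_emb
    (g := fun w : ℂ => D1 ‖w‖) Complex.measurableEquivRealProd.symm.measurableEmbedding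
  exact h2.2 h1

/-! ## Rounding -/

/-- the nearest lattice point -/
def kr (h : ℝ) (p : ℝ × ℝ) : ℤ × ℤ := (⌊p.1 / h + 1 / 2⌋, ⌊p.2 / h + 1 / 2⌋)

/-- the lattice point -/
def pt (h : ℝ) (k : ℤ × ℤ) : ℝ × ℝ := (h * k.1, h * k.2)

theorem kr_measurable (h : ℝ) : Measurable (kr h) := by
  unfold kr
  exact (Int.measurable_floor.comp (by fun_prop)).prodMk (Int.measurable_floor.comp (by fun_prop))

theorem floor_dist {h x : ℝ} (hh : 0 < h) : |x - h * ⌊x / h + 1 / 2⌋| ≤ h / 2 := by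
  have h1 := Int.floor_le (x / h + 1 / 2)
  have h2 := Int.lt_floor_add_one (x / h + 1 / 2)
  have h3 : x = h * (x / h) := by field_simp
  rw [abs_le]
  constructor
  · nlinarith
  · nlinarith

theorem kr_dist {h : ℝ} (hh : 0 < h) (p : ℝ × ℝ) :
    ‖cpx p - cpx (pt h (kr h p))‖ ≤ h * (3 / 4) := by
  have h1 := floor_dist (x := p.1) hh
  have h2 := floor_dist (x := p.2) hh
  have h3 : cpx p - cpx (pt h (kr h p)) =
      ⟨p.1 - h * ⌊p.1 / h + 1 / 2⌋, p.2 - h * ⌊p.2 / h + 1 / 2⌋⟩ := rfl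
  rw [h3]
  have h4 : ‖(⟨p.1 - h * ⌊p.1 / h + 1 / 2⌋, p.2 - h * ⌊p.2 / h + 1 / 2⌋⟩ : ℂ)‖ ^ 2 ≤
      (h * (3 / 4)) ^ 2 := by
    rw [Complex.sq_norm, Complex.normSq_apply]
    have h5 := abs_le.1 h1
    have h6 := abs_le.1 h2
    nlinarith [mul_self_le_mul_self (abs_nonneg _) h1, mul_self_le_mul_self (abs_nonneg _) h2,
      abs_mul_abs_self (p.1 - h * ⌊p.1 / h + 1 / 2⌋), abs_mul_abs_self (p.2 - h * ⌊p.2 / h + 1 / 2⌋)]
  exact le_of_sq_le_sq h4 (by positivity)

theorem pt_norm {h : ℝ} (hh : 0 < h) {k : ℤ × ℤ} (hk : k ≠ 0) : h ≤ ‖cpx (pt h k)‖ := by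
  have h1 : k.1 ≠ 0 ∨ k.2 ≠ 0 := by
    by_contra hcon
    push Not at hcon
    exact hk (Prod.ext hcon.1 hcon.2)
  rcases h1 with h1 | h1
  · have h2 := Complex.abs_re_le_norm (cpx (pt h k))
    refine le_trans ?_ h2
    change h ≤ |h * k.1|
    rw [abs_mul, abs_of_pos hh]
    have : (1 : ℝ) ≤ |(k.1 : ℝ)| := by exact_mod_cast Int.one_le_abs h1
    nlinarith
  · have h2 := Complex.abs_im_le_norm (cpx (pt h k))
    refine le_trans ?_ h2
    change h ≤ |h * k.2|
    rw [abs_mul, abs_of_pos hh]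
    have : (1 : ℝ) ≤ |(k.2 : ℝ)| := by exact_mod_cast Int.one_le_abs h1
    nlinarith

theorem DD_zero : DD 0 = 0 := by
  have h1 : cpx 0 = 0 := rfl
  unfold DD D1
  rw [h1, norm_zero, Real.zero_rpow (by norm_num), Real.zero_rpow (by norm_num), min_self]

theorem pt_zero (h : ℝ) : pt h 0 = 0 := by
  unfold pt
  simp

theorem DD_round {h : ℝ} (hh : 0 < h) (p : ℝ × ℝ) : DD (pt h (kr h p)) ≤ 8 * DD p := by
  by_cases hk : kr h p = 0
  · rw [hk, pt_zero, DD_zero]
    have := DD_nonneg p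
    positivity
  · have h1 := kr_dist hh p
    have h2 := pt_norm hh hk
    have h3 : ‖cpx p‖ ≤ 2 * ‖cpx (pt h (kr h p))‖ := by
      have h4 : ‖cpx p‖ ≤ ‖cpx p - cpx (pt h (kr h p))‖ + ‖cpx (pt h (kr h p))‖ := by
        simpa using norm_add_le (cpx p - cpx (pt h (kr h p))) (cpx (pt h (kr h p)))
      linarith
    have h4 : 0 < ‖cpx p‖ := by
      rw [norm_pos_iff]
      intro h0
      apply hk
      have h5 : p.1 = 0 := congrArg Complex.re h0
      have h6 : p.2 = 0 := congrArg Complex.im h0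
      unfold kr
      rw [h5, h6, zero_div, zero_add]
      norm_num
    exact (D1_anti (by positivity) (by linarith)).trans (D1_half h4)

variable {G : ℝ × ℝ → ℝ} {C : ℝ}

theorem round_measurable (G : ℝ × ℝ → ℝ) (h : ℝ) : Measurable fun p => G (pt h (kr h p)) :=
  (measurable_of_countable fun k : ℤ × ℤ => G (pt h k)).comp (kr_measurable h)

theorem round_bound (hC : 0 ≤ C) (hG : ∀ p, |G p| ≤ C * DD p) {h : ℝ} (hh : 0 < h) (p : ℝ × ℝ) :
    |G (pt h (kr h p))| ≤ 8 * C * DD p := by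
  calc |G (pt h (kr h p))| ≤ C * DD (pt h (kr h p)) := hG _
    _ ≤ C * (8 * DD p) := mul_le_mul_of_nonneg_left (DD_round hh p) hC
    _ = 8 * C * DD p := by ring

theorem round_integrable (hC : 0 ≤ C) (hG : ∀ p, |G p| ≤ C * DD p) {h : ℝ} (hh : 0 < h) :
    Integrable fun p => G (pt h (kr h p)) :=
  (DD_integrable.const_mul (8 * C)).mono' (round_measurable G h).aestronglyMeasurable
    (Eventually.of_forall fun p => round_bound hC hG hh p)

/-- the square around a lattice point -/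
def sq (h : ℝ) (k : ℤ × ℤ) : Set (ℝ × ℝ) := {p | kr h p = k}

theorem sq_eq {h : ℝ} (hh : 0 < h) (k : ℤ × ℤ) : sq h k =
    Ico (h * k.1 - h / 2) (h * k.1 + h / 2) ×ˢ Ico (h * k.2 - h / 2) (h * k.2 + h / 2) := by
  have key : ∀ (x : ℝ) (n : ℤ), ⌊x / h + 1 / 2⌋ = n ↔ x ∈ Ico (h * n - h / 2) (h * n + h / 2) := by
    intro x n
    have h3 : x = h * (x / h) := by field_simp
    rw [Int.floor_eq_iff, mem_Ico]
    constructor
    · rintro ⟨h1, h2⟩
      constructor
      · nlinarith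
      · nlinarith
    · rintro ⟨h1, h2⟩
      constructor
      · by_contra hcon
        push Not at hcon
        nlinarith
      · by_contra hcon
        push Not at hcon
        nlinarith
  ext p
  rw [mem_prod, ← key, ← key]
  exact Prod.ext_iff

theorem sq_volume {h : ℝ} (hh : 0 < h) (k : ℤ × ℤ) : volume.real (sq h k) = h ^ 2 := by
  rw [sq_eq hh, Measure.volume_eq_prod, measureReal_prod_prod, Real.volume_real_Ico, Real.volume_real_Ico]
  have h1 : h * k.1 + h / 2 - (h * k.1 - h / 2) = h := by ring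
  have h2 : h * k.2 + h / 2 - (h * k.2 - h / 2) = h := by ring
  rw [h1, h2, max_eq_left hh.le]
  ring

theorem round_hasSum (hC : 0 ≤ C) (hG : ∀ p, |G p| ≤ C * DD p) {h : ℝ} (hh : 0 < h) :
    HasSum (fun k : ℤ × ℤ => h ^ 2 * G (pt h k)) (∫ p, G (pt h (kr h p))) := by
  have hm : ∀ k, MeasurableSet (sq h k) := fun k => kr_measurable h (measurableSet_singleton k)
  have hd : Pairwise (Function.onFun Disjoint (sq h)) := by
    intro k l hkl
    rw [Function.onFun, Set.disjoint_left]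
    intro p hp hp'
    exact hkl (hp.symm.trans hp')
  have hU : ⋃ k, sq h k = univ := by
    rw [eq_univ_iff_forall]
    intro p
    exact mem_iUnion.2 ⟨kr h p, rfl⟩
  have h1 := hasSum_integral_iUnion hm hd (f := fun p => G (pt h (kr h p))) (μ := volume) (by
    rw [hU]
    exact (round_integrable hC hG hh).integrableOn)
  rw [hU, setIntegral_univ] at h1
  have h2 : ∀ k, ∫ p in sq h k, G (pt h (kr h p)) = h ^ 2 * G (pt h k) := by
    intro k
    rw [setIntegral_congr_fun (hm k) (g := fun _ => G (pt h k)) (fun p hp => by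
      have : kr h p = k := hp
      simp only [this]), setIntegral_const, sq_volume hh, smul_eq_mul]
  rwa [funext h2] at h1

/-- the normalised sum over the lattice -/
def SS (G : ℝ × ℝ → ℝ) (h : ℝ) : ℝ := h ^ 2 * ∑' k : ℤ × ℤ, G (pt h k)

theorem summable_pt (hC : 0 ≤ C) (hG : ∀ p, |G p| ≤ C * DD p) {h : ℝ} (hh : 0 < h) :
    Summable fun k : ℤ × ℤ => G (pt h k) := by
  have h1 := (round_hasSum hC hG hh).summable.mul_left (h ^ 2)⁻¹
  refine h1.congr fun k => ?_
  have : h ^ 2 ≠ 0 := by positivity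
  field_simp

theorem SS_eq (hC : 0 ≤ C) (hG : ∀ p, |G p| ≤ C * DD p) {h : ℝ} (hh : 0 < h) :
    SS G h = ∫ p, G (pt h (kr h p)) := by
  rw [← (round_hasSum hC hG hh).tsum_eq, tsum_mul_left]
  rfl

theorem SS_bound (hC : 0 ≤ C) (hG : ∀ p, |G p| ≤ C * DD p) {h : ℝ} (hh : 0 < h) :
    |SS G h| ≤ 8 * C * ∫ p, DD p := by
  rw [SS_eq hC hG hh, ← integral_const_mul]
  exact norm_integral_le_of_norm_le (f := fun p => G (pt h (kr h p))) (DD_integrable.const_mul (8 * C))
    (Eventually.of_forall fun p => round_bound hC hG hh p)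

/-- **Riemann sums.** -/
theorem SS_tendsto (hC : 0 ≤ C) (hG : ∀ p, |G p| ≤ C * DD p) (hc : ∀ᵐ p, ContinuousAt G p) :
    Tendsto (SS G) (𝓝[>] 0) (𝓝 (∫ p, G p)) := by
  have h1 : Tendsto (fun h => ∫ p, G (pt h (kr h p))) (𝓝[>] 0) (𝓝 (∫ p, G p)) := by
    refine tendsto_integral_filter_of_dominated_convergence (fun p => 8 * C * DD p) ?_ ?_ ?_ ?_
    · exact Eventually.of_forall fun h => (round_measurable G h).aestronglyMeasurable
    · filter_upwards [self_mem_nhdsWithin] with h hh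
      exact Eventually.of_forall fun p => round_bound hC hG hh p
    · exact DD_integrable.const_mul _
    · filter_upwards [hc] with p hp
      refine hp.tendsto.comp ?_
      have key : ∀ x : ℝ, Tendsto (fun h : ℝ => h * ⌊x / h + 1 / 2⌋) (𝓝[>] 0) (𝓝 x) := by
        intro x
        rw [tendsto_iff_dist_tendsto_zero]
        refine squeeze_zero' (Eventually.of_forall fun _ => dist_nonneg) (g := fun h : ℝ => h / 2) ?_ ?_
        · filter_upwards [self_mem_nhdsWithin] with h hh
          rw [dist_comm, Real.dist_eq]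
          exact floor_dist hh
        · have : Tendsto (fun h : ℝ => h / 2) (𝓝 0) (𝓝 (0 / 2)) := by
            exact (continuous_id.div_const 2).tendsto 0
          rw [zero_div] at this
          exact this.mono_left nhdsWithin_le_nhds
      exact (key p.1).prodMk_nhds (key p.2)
  refine h1.congr' ?_
  filter_upwards [self_mem_nhdsWithin] with h hh
  exact (SS_eq hC hG hh).symm

end

end Pool.Agent.Helper79.EX
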