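import Pool.Agent.Helper79.EX.Riem1

/-!
# Riemann sums over the primitive vectors (project EX, block R)
-/

open MeasureTheory Real Set Filter Topology

set_option autoImplicit false

namespace Pool.Agent.Helper79.EX

noncomputable section

/-- the normalised sum over the primitive vectors -/
def PR (G : ℝ × ℝ → ℝ) (h : ℝ) : ℝ :=
  h ^ 2 * ∑' k : ℤ × ℤ, if Int.gcd k.1 k.2 = 1 then G (pt h k) else 0

theorem sum_moebius (n : ℕ) : ∑ d ∈ n.divisors, ArithmeticFunction.moebius d =
    if n = 1 then 1 else 0 := by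
  have h1 := congrArg (fun f : ArithmeticFunction ℤ => f n) ArithmeticFunction.coe_zeta_mul_moebius
  simp only [ArithmeticFunction.coe_zeta_mul_apply] at h1
  rw [h1, ArithmeticFunction.one_apply]

variable {G : ℝ × ℝ → ℝ} {C : ℝ}

/-- the multiple of a lattice point -/
def mu (d : ℕ) (k : ℤ × ℤ) : ℤ × ℤ := ((d : ℤ) * k.1, (d : ℤ) * k.2)

theorem mu_injective {d : ℕ} (hd : d ≠ 0) : Function.Injective (mu d) := by
  intro k l h
  have h1 := congrArg Prod.fst h
  have h2 := congrArg Prod.snd h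
  have hd' : (d : ℤ) ≠ 0 := by exact_mod_cast hd
  exact Prod.ext (mul_left_cancel₀ hd' h1) (mul_left_cancel₀ hd' h2)

theorem pt_mu (h : ℝ) (d : ℕ) (k : ℤ × ℤ) : pt h (mu d k) = pt (d * h) k := by
  unfold pt mu
  push_cast
  exact Prod.ext (by ring) (by ring)

open scoped Classical in
/-- the terms at the multiples of `d` -/
def FF (G : ℝ × ℝ → ℝ) (h : ℝ) (d : ℕ) (k : ℤ × ℤ) : ℝ :=
  if k ≠ 0 ∧ (d : ℤ) ∣ k.1 ∧ (d : ℤ) ∣ k.2 then (ArithmeticFunction.moebius d : ℝ) * G (pt h k) else 0

theorem G_zero (hG : ∀ p, |G p| ≤ C * DD p) : G 0 = 0 := by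
  have := hG 0
  rw [DD_zero, mul_zero] at this
  exact abs_eq_zero.1 (le_antisymm this (abs_nonneg _))

theorem FF_mu (hG : ∀ p, |G p| ≤ C * DD p) (h : ℝ) (d : ℕ) (k : ℤ × ℤ) :
    FF G h d (mu d k) = (ArithmeticFunction.moebius d : ℝ) * G (pt (d * h) k) := by
  unfold FF
  by_cases hk : mu d k ≠ 0
  · rw [if_pos ⟨hk, Dvd.intro _ rfl, Dvd.intro _ rfl⟩, pt_mu]
  · rw [if_neg (fun h => hk h.1), ← pt_mu, not_ne_iff.1 hk, pt_zero, G_zero hG, mul_zero]

theorem FF_support (h : ℝ) (d : ℕ) {k : ℤ × ℤ} (hk : k ∉ Set.range (mu d)) : FF G h d k = 0 := by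
  unfold FF
  rw [if_neg]
  rintro ⟨-, ⟨a, ha⟩, ⟨b, hb⟩⟩
  exact hk ⟨(a, b), Prod.ext ha.symm hb.symm⟩

theorem FF_hasSum (hC : 0 ≤ C) (hG : ∀ p, |G p| ≤ C * DD p) {h : ℝ} (hh : 0 < h) (d : ℕ) :
    HasSum (FF G h d) ((ArithmeticFunction.moebius d : ℝ) * ∑' k, G (pt (d * h) k)) := by
  by_cases hd : d = 0
  · subst hd
    have h1 : FF G h 0 = fun _ => 0 := by
      funext k
      unfold FF
      simp
    rw [h1]
    simp
  · have hd' : (0 : ℝ) < d := by exact_mod_cast Nat.pos_of_ne_zero hd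
    rw [← (mu_injective hd).hasSum_iff (fun k hk => FF_support h d hk)]
    have h1 : FF G h d ∘ mu d = fun k => (ArithmeticFunction.moebius d : ℝ) * G (pt (d * h) k) :=
      funext fun k => FF_mu hG h d k
    rw [h1]
    exact (summable_pt hC hG (by positivity)).hasSum.mul_left _

theorem FF_norm (h : ℝ) (d : ℕ) (k : ℤ × ℤ) : |FF G h d k| = |FF (fun p => |G p|) h d k| := by
  unfold FF
  split_ifs
  · rw [abs_mul, abs_mul, abs_abs]
  · rfl

theorem moebius_le (d : ℕ) : |(ArithmeticFunction.moebius d : ℝ)| ≤ 1 := by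
  have := ArithmeticFunction.abs_moebius_le_one (n := d)
  exact_mod_cast this

theorem tsum_bound (hC : 0 ≤ C) (hG : ∀ p, |G p| ≤ C * DD p) {h : ℝ} (hh : 0 < h) :
    |∑' k, G (pt h k)| ≤ (8 * C * ∫ p, DD p) / h ^ 2 := by
  have h1 := SS_bound hC hG hh
  unfold SS at h1
  have h2 : 0 < h ^ 2 := by positivity
  rw [abs_mul, abs_of_pos h2] at h1
  rw [le_div_iff₀ h2, mul_comm]
  exact h1

theorem FF_summable (hC : 0 ≤ C) (hG : ∀ p, |G p| ≤ C * DD p) {h : ℝ} (hh : 0 < h) :
    Summable fun x : ℕ × (ℤ × ℤ) => FF G h x.1 x.2 := by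
  have hG' : ∀ p, |(fun p => |G p|) p| ≤ C * DD p := by
    intro p
    rw [abs_abs]
    exact hG p
  have h1 : Summable fun x : ℕ × (ℤ × ℤ) => |FF G h x.1 x.2| := by
    rw [summable_prod_of_nonneg (fun _ => abs_nonneg _)]
    constructor
    · intro d
      exact (FF_hasSum hC hG hh d).summable.abs
    · have h2 : ∀ d : ℕ, ∑' k, |FF G h d k| =
          |(ArithmeticFunction.moebius d : ℝ)| * ∑' k, |G (pt (d * h) k)| := by
        intro d
        by_cases hd : d = 0
        · subst hd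
          have h1 : ∀ k, |FF G h 0 k| = 0 := by
            intro k
            unfold FF
            simp
          rw [tsum_congr h1]
          simp
        · have hd' : (0 : ℝ) < d := by exact_mod_cast Nat.pos_of_ne_zero hd
          have h3 : HasSum (fun k => |FF G h d k|)
              (|(ArithmeticFunction.moebius d : ℝ)| * ∑' k, |G (pt (d * h) k)|) := by
            rw [← (mu_injective hd).hasSum_iff (fun k hk => by rw [FF_support h d hk, abs_zero])]
            have h1 : (fun k => |FF G h d k|) ∘ mu d =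
                fun k => |(ArithmeticFunction.moebius d : ℝ)| * |G (pt (d * h) k)| := by
              funext k
              rw [Function.comp_apply, FF_mu hG, abs_mul]
            rw [h1]
            exact (summable_pt hC hG (by positivity)).abs.hasSum.mul_left _
          exact h3.tsum_eq
      simp only
      rw [funext h2]
      have h4 : Summable fun d : ℕ => (8 * C * ∫ p, DD p) / h ^ 2 * (1 / (d : ℝ) ^ 2) :=
        (Real.summable_one_div_nat_pow.2 one_lt_two).mul_left _
      refine h4.of_nonneg_of_le (fun d => by positivity) fun d => ?_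
      by_cases hd : d = 0
      · subst hd
        simp
      · have hd' : (0 : ℝ) < d := by exact_mod_cast Nat.pos_of_ne_zero hd
        have h5 := tsum_bound hC hG' (h := d * h) (by positivity)
        rw [abs_of_nonneg (tsum_nonneg fun _ => abs_nonneg _)] at h5
        have h6 : (8 * C * ∫ p, DD p) / h ^ 2 * (1 / (d : ℝ) ^ 2) = (8 * C * ∫ p, DD p) / (d * h) ^ 2 := by
          field_simp
        rw [h6]
        calc |(ArithmeticFunction.moebius d : ℝ)| * ∑' k, |G (pt (d * h) k)|
            ≤ 1 * ∑' k, |G (pt (d * h) k)| :=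
              mul_le_mul_of_nonneg_right (moebius_le d) (tsum_nonneg fun _ => abs_nonneg _)
          _ ≤ _ := by rw [one_mul]; exact h5
  exact h1.of_abs

theorem FF_sum (h : ℝ) (k : ℤ × ℤ) : ∑' d, FF G h d k =
    if Int.gcd k.1 k.2 = 1 then G (pt h k) else 0 := by
  classical
  by_cases hk : k = 0
  · subst hk
    have h1 : ∀ d, FF G h d 0 = 0 := by
      intro d
      unfold FF
      simp
    rw [tsum_congr h1, tsum_zero, if_neg]
    simp
  · have hg : Int.gcd k.1 k.2 ≠ 0 := by
      rw [Ne, Int.gcd_eq_zero_iff]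
      rintro ⟨h1, h2⟩
      exact hk (Prod.ext h1 h2)
    have hdiv : ∀ d : ℕ, ((d : ℤ) ∣ k.1 ∧ (d : ℤ) ∣ k.2) ↔ d ∈ (Int.gcd k.1 k.2).divisors := by
      intro d
      rw [Nat.mem_divisors, ← Int.natCast_dvd_natCast, Int.dvd_coe_gcd_iff]
      exact ⟨fun h => ⟨h, hg⟩, fun h => h.1⟩
    rw [tsum_eq_sum (s := (Int.gcd k.1 k.2).divisors) (fun d hd => by
      unfold FF
      rw [if_neg]
      rintro ⟨-, h1⟩
      exact hd ((hdiv d).1 h1))]
    have h2 : ∀ d ∈ (Int.gcd k.1 k.2).divisors, FF G h d k =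
        (ArithmeticFunction.moebius d : ℝ) * G (pt h k) := by
      intro d hd
      unfold FF
      rw [if_pos ⟨hk, (hdiv d).2 hd⟩]
    rw [Finset.sum_congr rfl h2, ← Finset.sum_mul]
    have h3 := sum_moebius (Int.gcd k.1 k.2)
    have h4 : ∑ d ∈ (Int.gcd k.1 k.2).divisors, (ArithmeticFunction.moebius d : ℝ) =
        if Int.gcd k.1 k.2 = 1 then 1 else 0 := by
      rw [← Int.cast_sum, h3]
      split_ifs <;> simp
    rw [h4]
    split_ifs <;> simp

/-- **Moebius inversion.** -/
theorem PR_eq (hC : 0 ≤ C) (hG : ∀ p, |G p| ≤ C * DD p) {h : ℝ} (hh : 0 < h) :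
    PR G h = ∑' d : ℕ, (ArithmeticFunction.moebius d : ℝ) / (d : ℝ) ^ 2 * SS G (d * h) := by
  have h1 : ∑' k : ℤ × ℤ, (if Int.gcd k.1 k.2 = 1 then G (pt h k) else 0) =
      ∑' d : ℕ, (ArithmeticFunction.moebius d : ℝ) * ∑' k, G (pt (d * h) k) := by
    rw [← tsum_congr (fun k => FF_sum (G := G) h k)]
    have h2 : Summable (Function.uncurry (FF G h)) := FF_summable hC hG hh
    rw [h2.tsum_comm]
    exact tsum_congr fun d => (FF_hasSum hC hG hh d).tsum_eq
  unfold PR
  rw [h1, ← tsum_mul_left]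
  refine tsum_congr fun d => ?_
  unfold SS
  by_cases hd : d = 0
  · subst hd
    simp
  · have hd' : (d : ℝ) ≠ 0 := by exact_mod_cast hd
    field_simp

theorem zeta_two_inv : ∑' d : ℕ, (ArithmeticFunction.moebius d : ℝ) / (d : ℝ) ^ 2 = 6 / π ^ 2 := by
  have h1 := LSeries_one_mul_Lseries_moebius (s := 2) (by norm_num)
  rw [LSeries_one_eq_riemannZeta (by norm_num), riemannZeta_two] at h1
  have h2 : LSeries (fun n => ((ArithmeticFunction.moebius n : ℤ) : ℂ)) 2 =
      ((∑' d : ℕ, (ArithmeticFunction.moebius d : ℝ) / (d : ℝ) ^ 2 : ℝ) : ℂ) := by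
    rw [Complex.ofReal_tsum]
    unfold LSeries
    refine tsum_congr fun d => ?_
    rw [LSeries.term_def]
    split_ifs with hd
    · subst hd
      simp
    · push_cast
      congr 1
      norm_cast
  rw [h2] at h1
  have h3 : (π ^ 2 / 6) * (∑' d : ℕ, (ArithmeticFunction.moebius d : ℝ) / (d : ℝ) ^ 2) = 1 := by
    exact_mod_cast h1
  have h4 : (π ^ 2 / 6 : ℝ) ≠ 0 := by positivity
  field_simp
  field_simp at h3
  linarith

/-- **Riemann sums over the primitive vectors.** -/
theorem PR_tendsto (hC : 0 ≤ C) (hG : ∀ p, |G p| ≤ C * DD p) (hc : ∀ᵐ p, ContinuousAt G p) :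
    Tendsto (PR G) (𝓝[>] 0) (𝓝 (6 / π ^ 2 * ∫ p, G p)) := by
  have h1 := SS_tendsto hC hG hc
  have h2 : Tendsto (fun h => ∑' d : ℕ, (ArithmeticFunction.moebius d : ℝ) / (d : ℝ) ^ 2 * SS G (d * h))
      (𝓝[>] 0) (𝓝 (∑' d : ℕ, (ArithmeticFunction.moebius d : ℝ) / (d : ℝ) ^ 2 * ∫ p, G p)) := by
    refine tendsto_tsum_of_dominated_convergence
      (bound := fun d : ℕ => (8 * C * ∫ p, DD p) * (1 / (d : ℝ) ^ 2)) ?_ ?_ ?_
    · exact (Real.summable_one_div_nat_pow.2 one_lt_two).mul_left _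
    · intro d
      by_cases hd : d = 0
      · subst hd
        simp
      · have hd' : (0 : ℝ) < d := by exact_mod_cast Nat.pos_of_ne_zero hd
        refine Tendsto.const_mul _ (h1.comp ?_)
        rw [tendsto_nhdsWithin_iff]
        constructor
        · have : Tendsto (fun h : ℝ => (d : ℝ) * h) (𝓝 0) (𝓝 (d * 0)) :=
            (continuous_const.mul continuous_id).tendsto 0
          rw [mul_zero] at this
          exact this.mono_left nhdsWithin_le_nhds
        · filter_upwards [self_mem_nhdsWithin] with h hh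
          exact mul_pos hd' hh
    · filter_upwards [self_mem_nhdsWithin] with h hh
      intro d
      by_cases hd : d = 0
      · subst hd
        simp
      · have hd' : (0 : ℝ) < d := by exact_mod_cast Nat.pos_of_ne_zero hd
        have h3 := SS_bound hC hG (h := d * h) (mul_pos hd' hh)
        rw [Real.norm_eq_abs, abs_mul, abs_div, abs_of_pos (by positivity : (0 : ℝ) < (d : ℝ) ^ 2)]
        calc |(ArithmeticFunction.moebius d : ℝ)| / (d : ℝ) ^ 2 * |SS G (d * h)|
            ≤ 1 / (d : ℝ) ^ 2 * (8 * C * ∫ p, DD p) := by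
              refine mul_le_mul ?_ h3 (abs_nonneg _) (by positivity)
              exact div_le_div_of_nonneg_right (moebius_le d) (by positivity)
          _ = _ := by ring
  rw [tsum_mul_right, zeta_two_inv] at h2
  refine h2.congr' ?_
  filter_upwards [self_mem_nhdsWithin] with h hh
  exact (PR_eq hC hG hh).symm

end

end Pool.Agent.Helper79.EX
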